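import Pool.Agent.H82.RP.TA
import Pool.Agent.H5.MTP.IU
import Pool.Agent.H5.MTP.PU

/-!
# MP_76b9e7_nt, row IUQ of rpw_modules: both bounds for the integers
-/

set_option autoImplicit false

open Finset Real ArithmeticFunction
open scoped Nat ArithmeticFunction.Moebius

namespace Pool.Agent.H54.RP

open Pool.Agent.H82.RP Pool.Agent.H5.MTP
open Pool.Agent.H30.BV (NX As Er Sad Sf qj PZ lv nl)
open Pool.Agent.H31.MP (RS Rgh Pz Me Om Omr Wt Lam QF V1 nu dvh T_SD T_DG)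

theorem quarter_le_log {η : ℝ} (h0 : 0 < η) (h1 : η ≤ 1) : η / 4 ≤ Real.log (1 + η) := by
  have h2 := Real.one_sub_inv_le_log_of_pos (show (0 : ℝ) < 1 + η by linarith)
  refine le_trans ?_ h2
  have h3 : 1 - (1 + η)⁻¹ = η / (1 + η) := by
    field_simp
    ring
  rw [h3, div_le_div_iff₀ (by norm_num) (by linarith)]
  nlinarith

theorem bound_b {C η b : ℝ} (hC : 0 < C) (h0 : 0 < η) (h1 : η ≤ 1)
    (hb : b ≤ C * (1 + Real.log (1 / (η / 4)))) : b ≤ 3 * C * (1 + Real.log (1 / η)) := by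
  have h2 : (1 : ℝ) / (η / 4) = 4 * (1 / η) := by field_simp
  have h3 : 0 ≤ Real.log (1 / η) := Real.log_nonneg (by rw [le_div_iff₀ h0]; linarith)
  rw [h2, Real.log_mul (by norm_num) (by positivity)] at hb
  have h4 : Real.log 4 ≤ 2 := by
    have h5 : Real.log 4 = 2 * Real.log 2 := by
      have : (4 : ℝ) = 2 ^ 2 := by norm_num
      rw [this, Real.log_pow]
      norm_num
    have h6 := Real.log_two_lt_d9
    rw [h5]
    linarith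
  have h7 : C * (1 + (Real.log 4 + Real.log (1 / η))) ≤ C * (3 + 3 * Real.log (1 / η)) := by
    refine mul_le_mul_of_nonneg_left ?_ hC.le
    linarith
  calc b ≤ C * (3 + 3 * Real.log (1 / η)) := hb.trans h7
    _ = 3 * C * (1 + Real.log (1 / η)) := by ring

/-- IUQ. Both bounds for the integers. -/
theorem pf_IUQ (hIE : T_IEH) (hBL : Pool.Agent.H30.BV.T_BL) (hBU : Pool.Agent.H30.BV.T_BU)
    (hQK : T_QKQ) (hSD : Pool.Agent.H31.MP.T_SD) (hDG : Pool.Agent.H31.MP.T_DG) : T_IUQ := by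
  intro K hK
  obtain ⟨C₁, hC₁, hQ⟩ := hQK K
  refine ⟨3 * C₁, by positivity, ?_⟩
  intro η hη hη1
  obtain ⟨b, hb0, hb⟩ := hQ (η / 4) (by linarith) (by linarith)
  refine ⟨b, bound_b hC₁ hη hη1 hb0, ?_⟩
  intro y₀ A δ C H₀ hy hδ hδb hC
  obtain ⟨X₀, hX₀⟩ := hIE K b y₀ (A + 2) δ C H₀ hK hy hδ hδb hC
  obtain ⟨X₁, hX₁⟩ := large δ hδ
  refine ⟨max X₀ X₁, ?_⟩
  intro X hX Y h l hinj hh hY1 hY2 hW
  have hEr := hX₀ X ((le_max_left _ _).trans hX) Y h l hinj hh hY1 hY2 hW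
  obtain ⟨hX0, hL1, hz3, hlog⟩ := hX₁ X ((le_max_right _ _).trans hX)
  have hsub : Pz y₀ (X ^ δ) ⊆ PZ (X ^ δ) 2 := Pz_sub (by omega) _
  have hg : ∀ p ∈ Pz y₀ (X ^ δ), 0 ≤ (nu h p : ℝ) / p ∧ (nu h p : ℝ) / p ≤ K / p ∧
      (nu h p : ℝ) / p ≤ 1 / 2 := by
    intro p hp
    have h1 := Pz_mem hp
    have h2 : (nu h p : ℝ) / p ≤ K / p :=
      div_le_div_of_nonneg_right (Nat.cast_le.2 (nu_le h h1.1.pos)) (Nat.cast_nonneg _)
    exact ⟨by positivity, h2, h2.trans (K_div_le hy h1.2)⟩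
  have hg1 : ∀ p ∈ Pz y₀ (X ^ δ), 0 ≤ (nu h p : ℝ) / p ∧ (nu h p : ℝ) / p < 1 := fun p hp =>
    ⟨(hg p hp).1, lt_of_le_of_lt (hg p hp).2.2 (by norm_num)⟩
  obtain ⟨C1, B1, hC1, hSD1⟩ := hSD K
  have hSD2 := hSD1 (X ^ δ) (Pz y₀ (X ^ δ)) (fun p => (nu h p : ℝ) / p) b hz3 hsub
    (fun p hp => ⟨(hg p hp).1, (hg p hp).2.1⟩)
  have hq := (hb (X ^ δ) (Pz y₀ (X ^ δ)) (fun p => (nu h p : ℝ) / p) hz3 hsub hg).trans
    (quarter_le_log hη hη1)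
  have hZ : 0 ≤ (NX X : ℝ) / primorial y₀ * QF (X ^ δ) Y l :=
    mul_nonneg (by positivity) (QF_nonneg hDG K _ _ _)
  have hV := prod_one_sub_nonneg (Pz y₀ (X ^ δ)) (fun p => (nu h p : ℝ) / p)
    fun p hp => (hg1 p hp).2
  have hw : ∀ n ∈ Om X y₀, 0 ≤ (fun n => 1 * Lam (X ^ δ) Y l h n ^ 2) n :=
    fun n _ => by positivity
  have hS := hBU (Om X y₀) (Pz y₀ (X ^ δ)) (fun n => 1 * Lam (X ^ δ) Y l h n ^ 2) (dvh h)
    (lv (X ^ δ)) (fun j => b + j) (nl (X ^ δ)) (fun p => (nu h p : ℝ) / p)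
    ((NX X : ℝ) / primorial y₀ * QF (X ^ δ) Y l) hw hZ hg1 hSD2.2.2.1
  have hT := hBL (Om X y₀) (Pz y₀ (X ^ δ)) (fun n => 1 * Lam (X ^ δ) Y l h n ^ 2) (dvh h)
    (lv (X ^ δ)) (fun j => b + j) (nl (X ^ δ)) (fun p => (nu h p : ℝ) / p)
    ((NX X : ℝ) / primorial y₀ * QF (X ^ δ) Y l) hw hZ hg1 hSD2.2.2.1
  have hE2 := err_le A hX0 hL1 hSD2.2.2.2 (Nat.cast_nonneg _) hlog hEr
  have hU := upper hZ hV hη hq hS
  have hD := lower hZ hV hη hq hT hE2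
  have e1 : ∑ n ∈ Omr X y₀ (X ^ δ) h, Lam (X ^ δ) Y l h n ^ 2 =
      Sf (Om X y₀) (fun n => 1 * Lam (X ^ δ) Y l h n ^ 2) (dvh h) (Pz y₀ (X ^ δ)) := by
    unfold Sf Omr
    simp only [one_mul]
  have e2 : (NX X : ℝ) / primorial y₀ * QF (X ^ δ) Y l *
      ∏ p ∈ Pz y₀ (X ^ δ), (1 - (nu h p : ℝ) / p) =
      NX X / primorial y₀ * V1 y₀ (X ^ δ) h * QF (X ^ δ) Y l := by
    unfold V1
    ring
  have e3 := div_log_le hX0 hL1 A
  rw [e2] at hU hD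
  rw [e1]
  exact ⟨hD, by linarith⟩

end Pool.Agent.H54.RP
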