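import Pool.Agent.H54.RP.TEN

/-!
# MP_76b9e7_nt, row RJ of rpw_modules: one more variable
-/

set_option autoImplicit false

open Finset Real ArithmeticFunction
open scoped Nat ArithmeticFunction.Moebius

namespace Pool.Agent.H54.RP

open Pool.Agent.H82.RP Pool.Agent.H57.MTP
open Pool.Agent.H31.MP (RS Rgh Pz Me Om Lam1 QF1)

section

variable {I : Type} [Fintype I] [DecidableEq I]

theorem one_mem_RS {z W : ℝ} (hW : 1 ≤ W) : 1 ∈ RS z W := by
  simp only [RS, Finset.mem_filter, Finset.mem_Icc, Rgh]
  refine ⟨⟨le_rfl, (Nat.one_le_floor_iff _).2 hW⟩, squarefree_one, fun p hp h => ?_⟩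
  exact absurd (Nat.dvd_one.1 h) hp.one_lt.ne'

/-- the tuples with `d j = 1` -/
noncomputable def SJ (j : I) (z W : ℝ) : Finset (I → ℕ) := (BG I z W).filter fun d => d j = 1

theorem sum_BG_update (j : I) (z W : ℝ) (hW : 1 ≤ W) (f : (I → ℕ) → ℝ) :
    ∑ d ∈ BG I z W, f d = ∑ u ∈ RS z W, ∑ d ∈ SJ j z W, f (Function.update d j u) := by
  rw [← Finset.sum_product']
  refine Finset.sum_nbij' (fun d => (d j, Function.update d j 1))
    (fun q => Function.update q.2 j q.1) ?_ ?_ ?_ ?_ ?_
  · intro d hd
    rw [mem_BG] at hd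
    rw [Finset.mem_product, SJ, Finset.mem_filter, mem_BG]
    refine ⟨hd j, fun i => ?_, Function.update_self _ _ _⟩
    rcases eq_or_ne i j with rfl | h
    · simp only [Function.update_self]
      exact one_mem_RS hW
    · simp only [Function.update_of_ne h]
      exact hd i
  · intro q hq
    rw [Finset.mem_product, SJ, Finset.mem_filter, mem_BG] at hq
    rw [mem_BG]
    intro i
    rcases eq_or_ne i j with rfl | h
    · rw [Function.update_self]
      exact hq.1
    · rw [Function.update_of_ne h]
      exact hq.2.1 i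
  · intro d _
    simp only [Function.update_idem, Function.update_eq_self]
  · intro q hq
    rw [Finset.mem_product, SJ, Finset.mem_filter] at hq
    refine Prod.ext ?_ ?_
    · simp only [Function.update_self]
    · simp only [Function.update_idem]
      rw [← hq.2.2, Function.update_eq_self]
  · intro d _
    simp only [Function.update_idem, Function.update_eq_self]

theorem prod_update_lcm (j : I) (d e : I → ℕ) (hd : d j = 1) (he : e j = 1) (u v : ℕ) :
    ∏ i, (Nat.lcm (Function.update d j u i) (Function.update e j v i) : ℝ) =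
      (Nat.lcm u v : ℝ) * ∏ i, (Nat.lcm (d i) (e i) : ℝ) := by
  rw [← Finset.mul_prod_erase univ _ (Finset.mem_univ j),
    ← Finset.mul_prod_erase univ (fun i => (Nat.lcm (d i) (e i) : ℝ)) (Finset.mem_univ j),
    Function.update_self, Function.update_self, hd, he]
  have h1 : (Nat.lcm 1 1 : ℝ) = 1 := by norm_num
  rw [h1, one_mul]
  congr 1
  refine Finset.prod_congr rfl fun i hi => ?_
  rw [Function.update_of_ne (Finset.ne_of_mem_erase hi),
    Function.update_of_ne (Finset.ne_of_mem_erase hi)]

end

/-- RJ. One more variable. -/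
theorem pf_RJ : T_RJ := by
  classical
  intro I _ _ j U z Y D C ρ l l' hY hD hρ1 hρs hC hj hl hl'
  have hYW : Y ≤ D * Y := by nlinarith
  have hDW : D ≤ D * Y := by nlinarith
  have hW1 : 1 ≤ D * Y := hY.trans hYW
  -- restricting the sums
  have hsu : ∀ g : ℕ → ℝ, (∀ u, ρ u = 0 → g u = 0) →
      ∑ u ∈ RS z (D * Y), g u = ∑ u ∈ RS z D, g u := by
    intro g hg
    refine (Finset.sum_subset (RS_mono hDW) ?_).symm
    intro u _ hu
    by_contra hne
    exact hu (hρs u fun h0 => hne (hg u h0))
  have hsd : ∀ l : (I → ℕ) → ℝ, WG U z Y C l → ∀ g : (I → ℕ) → ℝ, (∀ d, l d = 0 → g d = 0) →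
      ∑ d ∈ SJ j z (D * Y), g d = ∑ d ∈ BG I z Y, g d := by
    intro l hl g hg
    have h1 : ∑ d ∈ SJ j z (D * Y), g d = ∑ d ∈ BG I z (D * Y), g d := by
      refine Finset.sum_subset (Finset.filter_subset _ _) ?_
      intro d hd hd'
      by_contra hne
      have h2 := hl.supp d fun h0 => hne (hg d h0)
      exact hd' (Finset.mem_filter.2 ⟨hd, h2.2.2 j hj⟩)
    rw [h1]
    exact sum_BG_restrict hYW hl g hg
  have hrj : ∀ (l : (I → ℕ) → ℝ) (u : ℕ) (d : I → ℕ), d j = 1 →
      rj j ρ l (Function.update d j u) = ρ u * l d := by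
    intro l u d hd
    unfold rj
    rw [Function.update_self, Function.update_idem]
    congr 2
    rw [← hd, Function.update_eq_self]
  have hSJ : ∀ d ∈ SJ j z (D * Y), d j = 1 := fun d hd => (Finset.mem_filter.1 hd).2
  refine ⟨⟨?_, ?_⟩, ?_, ?_⟩
  · intro d hd
    have h1 : ρ (d j) ≠ 0 := left_ne_zero_of_mul hd
    have h2 : l (Function.update d j 1) ≠ 0 := right_ne_zero_of_mul hd
    have h3 := hρs _ h1
    obtain ⟨h4, h5, h6⟩ := hl.supp _ h2
    rw [mem_BG] at h4
    refine ⟨?_, ?_, ?_⟩
    · rw [mem_BG]
      intro i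
      rcases eq_or_ne i j with rfl | h
      · exact RS_mono hDW h3
      · have := h4 i
        rw [Function.update_of_ne h] at this
        exact RS_mono hYW this
    · have h7 : ∏ i, d i = d j * ∏ i, Function.update d j 1 i := by
        rw [← Finset.mul_prod_erase univ _ (Finset.mem_univ j),
          ← Finset.mul_prod_erase univ (fun i => Function.update d j 1 i) (Finset.mem_univ j),
          Function.update_self, one_mul]
        congr 1
        refine Finset.prod_congr rfl fun i hi => ?_
        rw [Function.update_of_ne (Finset.ne_of_mem_erase hi)]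
      rw [h7, Nat.cast_mul]
      have h8 : ((d j : ℕ) : ℝ) ≤ D := RS_le (by linarith) h3
      exact mul_le_mul h8 h5 (Nat.cast_nonneg _) (by linarith)
    · intro i hi
      rw [Finset.mem_insert, not_or] at hi
      have := h6 i hi.2
      rwa [Function.update_of_ne hi.1] at this
  · intro d
    simp only [rj, abs_mul]
    calc |ρ (d j)| * |l (Function.update d j 1)| ≤ 1 * C :=
          mul_le_mul (hρ1 _) (hl.bd _) (abs_nonneg _) (by norm_num)
      _ = C := one_mul C
  · unfold QB QF1
    rw [sum_BG_update j z _ hW1]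
    have h1 : ∀ (u : ℕ), ∀ d ∈ SJ j z (D * Y),
        ∑ e ∈ BG I z (D * Y), rj j ρ l (Function.update d j u) * rj j ρ l' e /
          ∏ i, (Nat.lcm (Function.update d j u i) (e i) : ℝ) =
        (∑ v ∈ RS z D, ρ u * ρ v / (Nat.lcm u v : ℝ)) *
          ∑ e ∈ BG I z Y, l d * l' e / ∏ i, (Nat.lcm (d i) (e i) : ℝ) := by
      intro u d hd
      rw [sum_BG_update j z _ hW1]
      have h2 : ∀ v : ℕ, ∑ e ∈ SJ j z (D * Y), rj j ρ l (Function.update d j u) *
          rj j ρ l' (Function.update e j v) /
          ∏ i, (Nat.lcm (Function.update d j u i) (Function.update e j v i) : ℝ) =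
          (ρ u * ρ v / (Nat.lcm u v : ℝ)) *
            ∑ e ∈ BG I z Y, l d * l' e / ∏ i, (Nat.lcm (d i) (e i) : ℝ) := by
        intro v
        rw [← hsd l' hl' (fun e => l d * l' e / ∏ i, (Nat.lcm (d i) (e i) : ℝ)), Finset.mul_sum]
        · refine Finset.sum_congr rfl fun e he => ?_
          rw [hrj l u d (hSJ d hd), hrj l' v e (hSJ e he),
            prod_update_lcm j d e (hSJ d hd) (hSJ e he), div_mul_div_comm]
          congr 1
          ring
        · intro e he
          rw [he]
          simp
      simp only [h2]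
      rw [hsu, Finset.sum_mul]
      intro v hv
      rw [hv]
      simp
    have h3 : ∀ u, ∑ d ∈ SJ j z (D * Y), ∑ e ∈ BG I z (D * Y),
        rj j ρ l (Function.update d j u) * rj j ρ l' e /
          ∏ i, (Nat.lcm (Function.update d j u i) (e i) : ℝ) =
        (∑ v ∈ RS z D, ρ u * ρ v / (Nat.lcm u v : ℝ)) * ∑ d ∈ BG I z Y,
          ∑ e ∈ BG I z Y, l d * l' e / ∏ i, (Nat.lcm (d i) (e i) : ℝ) := by
      intro u
      rw [Finset.sum_congr rfl (h1 u), ← Finset.mul_sum, hsd l hl]
      intro d hd
      exact Finset.sum_eq_zero fun e _ => by rw [hd]; simp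
    simp only [h3]
    rw [hsu, Finset.sum_mul]
    intro u hu
    have : ∑ v ∈ RS z D, ρ u * ρ v / (Nat.lcm u v : ℝ) = 0 :=
      Finset.sum_eq_zero fun v _ => by rw [hu]; simp
    rw [this, zero_mul]
  · intro P n
    unfold LG Lam1
    rw [sum_BG_update j z _ hW1]
    have h1 : ∀ (u : ℕ), ∀ d ∈ SJ j z (D * Y),
        (if ∀ i, Function.update d j u i ∣ n + P i then rj j ρ l (Function.update d j u) else 0) =
        (if u ∣ n + P j then ρ u else 0) * (if ∀ i, d i ∣ n + P i then l d else 0) := by
      intro u d hd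
      have hdj := hSJ d hd
      rw [hrj l u d hdj]
      have hiff : (∀ i, Function.update d j u i ∣ n + P i) ↔
          (u ∣ n + P j ∧ ∀ i, d i ∣ n + P i) := by
        constructor
        · intro h
          refine ⟨by simpa using h j, fun i => ?_⟩
          rcases eq_or_ne i j with rfl | hij
          · rw [hdj]
            exact one_dvd _
          · have := h i
            rwa [Function.update_of_ne hij] at this
        · rintro ⟨h, h'⟩ i
          rcases eq_or_ne i j with rfl | hij
          · rw [Function.update_self]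
            exact h
          · rw [Function.update_of_ne hij]
            exact h' i
      by_cases hA : u ∣ n + P j
      · by_cases hB : ∀ i, d i ∣ n + P i
        · rw [if_pos (hiff.2 ⟨hA, hB⟩), if_pos hA, if_pos hB]
        · rw [if_neg (fun hh => hB (hiff.1 hh).2), if_neg hB, mul_zero]
      · rw [if_neg (fun hh => hA (hiff.1 hh).1), if_neg hA, zero_mul]
    have h2 : ∀ u, ∑ d ∈ SJ j z (D * Y),
        (if ∀ i, Function.update d j u i ∣ n + P i then rj j ρ l (Function.update d j u) else 0) =
        (if u ∣ n + P j then ρ u else 0) *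
          ∑ d ∈ BG I z Y, (if ∀ i, d i ∣ n + P i then l d else 0) := by
      intro u
      rw [Finset.sum_congr rfl (h1 u), ← Finset.mul_sum, hsd l hl]
      intro d hd
      rw [hd]
      simp
    simp only [h2]
    rw [hsu, Finset.sum_mul]
    intro u hu
    rw [hu]
    simp

end Pool.Agent.H54.RP
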