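import Pool.Agent.H82.RP.TC
import Pool.Agent.H20.MP.SA

/-!
# MP_76b9e7_nt, row SAH of rpw_modules: the mean value of the singular factor

The proof of `sa_gen` is that of `Pool.Agent.H20.MP.pf_SA` with a general constant.
-/

set_option autoImplicit false

open Finset Real ArithmeticFunction
open scoped Nat ArithmeticFunction.Moebius

namespace Pool.Agent.H54.RP

open Pool.Agent.H82.RP Pool.Agent.H20.MP Pool.Agent.H31.MP

theorem sa_log' (H : ℝ) (hH : 1 ≤ H) (B : ℕ) (c : ℝ) : ∃ L₀ : ℝ, ∀ L : ℝ, L₀ ≤ L →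
    c * Real.log (H * L) ^ B ≤ L := by
  have hH0 : 0 < H := by linarith
  have h := (isLittleO_pow_log_id_atTop (n := B)).bound
    (show 0 < 1 / (H * (|c| + 1)) by positivity)
  obtain ⟨X₁, hX₁⟩ := Filter.eventually_atTop.1 h
  refine ⟨max X₁ 1, fun L hL => ?_⟩
  have hL1 : 1 ≤ L := (le_max_right _ _).trans hL
  have hLX : X₁ ≤ L := (le_max_left _ _).trans hL
  have hHL : L ≤ H * L := by nlinarith
  have h1 := hX₁ (H * L) (by linarith)
  have hl : 0 ≤ Real.log (H * L) := Real.log_nonneg (by linarith)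
  rw [id, Real.norm_of_nonneg (pow_nonneg hl _), Real.norm_of_nonneg (by linarith)] at h1
  have h2 : (|c| + 1) * Real.log (H * L) ^ B ≤ L := by
    calc (|c| + 1) * Real.log (H * L) ^ B ≤
          (|c| + 1) * (1 / (H * (|c| + 1)) * (H * L)) :=
          mul_le_mul_of_nonneg_left h1 (by positivity)
      _ = L := by
          field_simp
  refine le_trans (mul_le_mul_of_nonneg_right ?_ (pow_nonneg hl _)) h2
  linarith [le_abs_self c]

theorem sa_gen (hDVK : T_DVK) (K : ℕ) (η : ℝ) (hη : 0 < η) : ∃ y₁ : ℕ, ∀ y₀ : ℕ, y₁ ≤ y₀ →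
    ∀ t H : ℝ, 0 < t → 2 ≤ H → ∃ X₀ : ℝ, ∀ X : ℝ, X₀ ≤ X → ∀ (h : Fin K → ℕ) (a m : ℕ),
    (∀ i, (h i : ℝ) ≤ H * Real.log X) → ((a + m : ℕ) : ℝ) ≤ H * Real.log X →
    t * Real.log X ≤ m →
    ∑ e ∈ (Ico a (a + m)).filter (fun e => (1 + e).Coprime (primorial y₀)), Rp y₀ e h ≤
      (1 + η) * ((primorial y₀).totient / primorial y₀) * m := by
  classical
  obtain ⟨C, B, hC, hCB⟩ := hDVK K
  -- the choice of y₁
  have hlog : 0 < Real.log (1 + η / 2) := Real.log_pos (by linarith)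
  obtain ⟨y₁, hy₁⟩ := exists_nat_gt ((K : ℝ) / Real.log (1 + η / 2))
  refine ⟨y₁ + 1, fun y₀ hy₀ t H ht hH => ?_⟩
  have hy1 : 1 ≤ y₀ := by omega
  have hy0 : (0 : ℝ) < y₀ := by exact_mod_cast hy1
  have hexp : Real.exp ((K : ℝ) / y₀) ≤ 1 + η / 2 := by
    rw [← Real.le_log_iff_exp_le (by linarith)]
    rw [div_le_iff₀ hy0]
    rw [div_lt_iff₀ hlog] at hy₁
    have h1 : (y₁ : ℝ) ≤ y₀ := by
      have : y₁ ≤ y₀ := by omega
      exact_mod_cast this
    have h2 : (y₁ : ℝ) * Real.log (1 + η / 2) ≤ y₀ * Real.log (1 + η / 2) :=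
      mul_le_mul_of_nonneg_right h1 hlog.le
    linarith
  set W := primorial y₀ with hW
  have hW0 : 0 < W := primorial_pos y₀
  have hWr : (0 : ℝ) < W := by exact_mod_cast hW0
  obtain ⟨L₀, hL₀⟩ := sa_log' H (by linarith) B ((W : ℝ) * (C * ((K : ℝ) + 1) ^ B) * (2 / η) / t)
  refine ⟨Real.exp (max L₀ 1), fun X hX h a m hh ham htm => ?_⟩
  have hX0 : 0 < X := (Real.exp_pos _).trans_le hX
  have hLX : max L₀ 1 ≤ Real.log X := (Real.le_log_iff_exp_le hX0).2 hX
  set L := Real.log X with hL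
  have hL1 : 1 ≤ L := (le_max_right _ _).trans hLX
  have hL0 : L₀ ≤ L := (le_max_left _ _).trans hLX
  set N : ℕ := ⌊(H * L) ^ (K + 1)⌋₊ with hN
  have h20 : 1 ≤ H * L := by nlinarith
  have h21 : 2 ≤ H * L := by nlinarith
  have hN2 : 2 ≤ N := by
    refine Nat.le_floor ?_
    have h1 : H * L ≤ (H * L) ^ (K + 1) := le_self_pow₀ h20 (by omega)
    push_cast
    linarith
  have hNlog : Real.log N ≤ ((K : ℝ) + 1) * Real.log (H * L) := by
    have h1 : (N : ℝ) ≤ (H * L) ^ (K + 1) := Nat.floor_le (by positivity)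
    have h2 : (0 : ℝ) < N := by
      have : 0 < N := by omega
      exact_mod_cast this
    have h3 := Real.log_le_log h2 h1
    rw [Real.log_pow] at h3
    push_cast at h3
    exact h3
  set P : Finset ℕ := (Icc 1 N).filter fun p => p.Prime ∧ y₀ < p with hP
  have hPp : ∀ p ∈ P, p.Prime ∧ y₀ < p := fun p hp => (mem_filter.1 hp).2
  let w : Finset ℕ → ℝ := fun T => ∏ p ∈ T, 1 / ((p : ℝ) - 1)
  set 𝒯 : Finset (Finset ℕ) := P.powerset.filter fun T => ∏ p ∈ T, p ≤ N with h𝒯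
  have hTp : ∀ T ∈ 𝒯, ∀ p ∈ T, p.Prime ∧ y₀ < p := fun T hT p hp =>
    hPp p ((mem_powerset.1 (mem_filter.1 hT).1) hp)
  have hwpos : ∀ T : Finset ℕ, (∀ p ∈ T, p.Prime ∧ y₀ < p) → 0 ≤ w T := by
    intro T hT
    refine prod_nonneg fun p hp => ?_
    have : (1 : ℝ) < p := by exact_mod_cast (hT p hp).1.one_lt
    exact div_nonneg zero_le_one (by linarith)
  set E : Finset ℕ := (Ico a (a + m)).filter fun e => (1 + e).Coprime W with hE
  -- expansion of the singular factor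
  have hexpand : ∀ e ∈ E, Rp y₀ e h ≤
      ∑ T ∈ 𝒯, if (∀ p ∈ T, ∃ i, (p : ℤ) ∣ (e : ℤ) - h i) then w T else 0 := by
    intro e he
    set M := ∏ i, ((e : ℤ) - h i).natAbs with hM
    set S : Finset ℕ := M.primeFactors.filter fun p => y₀ < p with hS
    have hSp : ∀ p ∈ S, p.Prime ∧ y₀ < p := by
      intro p hp
      have h1 := mem_filter.1 hp
      exact ⟨Nat.prime_of_mem_primeFactors h1.1, h1.2⟩
    have h1 : Rp y₀ e h = ∑ T ∈ S.powerset, w T := by
      unfold Rp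
      rw [← hM, ← hS]
      rw [← prod_one_add S (f := fun p : ℕ => 1 / ((p : ℝ) - 1))]
      refine prod_congr rfl fun p hp => ?_
      have h2 : (1 : ℝ) < p := by exact_mod_cast (hSp p hp).1.one_lt
      have h3 : (p : ℝ) - 1 ≠ 0 := by linarith
      have h4 : (p : ℝ) ≠ 0 := by linarith
      have h5 : 1 - 1 / (p : ℝ) = ((p : ℝ) - 1) / p := by field_simp
      rw [h5, inv_div]
      field_simp
      ring
    rw [h1, ← sum_filter]
    refine sum_le_sum_of_subset_of_nonneg ?_ fun T hT _ => hwpos T (hTp T (mem_filter.1 hT).1)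
    intro T hT
    rw [mem_powerset] at hT
    rw [mem_filter]
    have hdiv : ∀ p ∈ T, ∃ i, (p : ℤ) ∣ (e : ℤ) - h i := by
      intro p hp
      have h2 := hT hp
      have h3 := (mem_filter.1 h2).1
      have h4 : p ∣ M := Nat.dvd_of_mem_primeFactors h3
      rw [hM] at h4
      obtain ⟨i, -, hi⟩ := ((hSp p h2).1.prime.dvd_finsetProd_iff _).1 h4
      exact ⟨i, Int.natCast_dvd.2 hi⟩
    refine ⟨?_, hdiv⟩
    rw [h𝒯, mem_filter, mem_powerset]
    have hMN : T.Nonempty → M ≤ N := by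
      rintro ⟨p, hp⟩
      rw [hN]
      refine Nat.le_floor ?_
      rw [hM, Nat.cast_prod]
      have h5' : ∀ i, ((((e : ℤ) - h i).natAbs : ℕ) : ℝ) = |(e : ℝ) - h i| := by
        intro i
        rw [Nat.cast_natAbs]
        push_cast
        rfl
      rw [prod_congr rfl fun i _ => h5' i]
      have h5 : ∏ i : Fin K, (|(e : ℝ) - h i|) ≤ ∏ _i : Fin K, (H * L) := by
        refine prod_le_prod (fun i _ => abs_nonneg _) fun i _ => ?_
        have h6 : (e : ℝ) ≤ H * L := by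
          have h7 := (mem_Ico.1 (mem_filter.1 he).1).2
          have h8 : (e : ℝ) ≤ ((a + m : ℕ) : ℝ) := by exact_mod_cast h7.le
          linarith
        have h7 : (0 : ℝ) ≤ e := Nat.cast_nonneg _
        have h8 : (0 : ℝ) ≤ h i := Nat.cast_nonneg _
        have h9 := hh i
        rw [abs_le]
        constructor <;> linarith
      rw [prod_const, card_univ, Fintype.card_fin] at h5
      refine h5.trans ?_
      exact pow_le_pow_right₀ h20 (by omega)
    have hTM : M ≠ 0 → ∏ p ∈ T, p ∣ M := by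
      intro hM0
      refine Finset.prod_primes_dvd _ (fun p hp => (hSp p (hT hp)).1.prime) fun p hp => ?_
      exact Nat.dvd_of_mem_primeFactors (mem_filter.1 (hT hp)).1
    constructor
    · intro p hp
      rw [hP, mem_filter, mem_Icc]
      have h2 := hT hp
      have h3 := (mem_filter.1 h2).1
      have hM0 : M ≠ 0 := (Nat.mem_primeFactors.1 h3).2.2
      refine ⟨⟨(hSp p h2).1.one_lt.le, ?_⟩, hSp p h2⟩
      exact (Nat.le_of_dvd (Nat.pos_of_ne_zero hM0) (Nat.dvd_of_mem_primeFactors h3)).trans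
        (hMN ⟨p, hp⟩)
    · rcases T.eq_empty_or_nonempty with h0 | h0
      · rw [h0, prod_empty]
        omega
      · obtain ⟨p, hp⟩ := h0
        have hM0 : M ≠ 0 := (Nat.mem_primeFactors.1 (mem_filter.1 (hT hp)).1).2.2
        exact (Nat.le_of_dvd (Nat.pos_of_ne_zero hM0) (hTM hM0)).trans (hMN ⟨p, hp⟩)
  -- exchange
  have hsum : ∑ e ∈ E, Rp y₀ e h ≤ ∑ T ∈ 𝒯, w T * (W.totient * (K : ℝ) ^ T.card *
      ((m : ℝ) / (W * ∏ p ∈ T, p : ℕ) + 1)) := by
    refine (sum_le_sum hexpand).trans ?_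
    rw [sum_comm]
    refine sum_le_sum fun T hT => ?_
    rw [← sum_filter, sum_const, nsmul_eq_mul, mul_comm]
    refine mul_le_mul_of_nonneg_left ?_ (hwpos T (hTp T hT))
    exact sa_count y₀ a m h T (hTp T hT)
  -- the first part
  have hfirst : ∑ T ∈ 𝒯, w T * ((K : ℝ) ^ T.card / (∏ p ∈ T, p : ℕ)) ≤ 1 + η / 2 := by
    refine le_trans ?_ ((sa_prod K y₀ hy1 P hPp).trans hexp)
    rw [prod_one_add]
    have h1 : ∀ T : Finset ℕ, w T * ((K : ℝ) ^ T.card / (∏ p ∈ T, p : ℕ)) =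
        ∏ p ∈ T, ((K : ℝ) / ((p : ℝ) * (p - 1))) := by
      intro T
      change (∏ p ∈ T, 1 / ((p : ℝ) - 1)) * _ = _
      rw [← prod_const, Nat.cast_prod, ← prod_div_distrib, ← prod_mul_distrib]
      refine prod_congr rfl fun p _ => ?_
      rw [div_mul_div_comm, one_mul, mul_comm ((p : ℝ) - 1)]
    rw [sum_congr rfl fun T _ => h1 T]
    refine sum_le_sum_of_subset_of_nonneg (filter_subset _ _) fun T hT _ => ?_
    refine prod_nonneg fun p hp => ?_
    have h2 : (1 : ℝ) < p := by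
      exact_mod_cast (hPp p ((mem_powerset.1 hT) hp)).1.one_lt
    have h3 : 0 < (p : ℝ) - 1 := by linarith
    positivity
  -- the second part
  have hsecond : ∑ T ∈ 𝒯, w T * (K : ℝ) ^ T.card ≤
      C * (((K : ℝ) + 1) ^ B * Real.log (H * L) ^ B) := by
    have h1 : ∑ T ∈ 𝒯, w T * (K : ℝ) ^ T.card =
        ∑ d ∈ 𝒯.image fun T => ∏ p ∈ T, p, (K : ℝ) ^ om d / (d.totient : ℝ) := by
      rw [sum_image]
      · refine sum_congr rfl fun T hT => ?_
        have h2 : (∏ p ∈ T, p).primeFactors = T :=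
          Nat.primeFactors_prod fun p hp => (hTp T hT p hp).1
        have h3 : om (∏ p ∈ T, p) = T.card := by
          unfold om
          rw [h2]
        have h4 : ((∏ p ∈ T, p).totient : ℝ) = ∏ p ∈ T, ((p : ℝ) - 1) := by
          rw [sa_tot T fun p hp => (hTp T hT p hp).1, Nat.cast_prod]
          refine prod_congr rfl fun p hp => ?_
          rw [Nat.cast_sub (hTp T hT p hp).1.one_lt.le, Nat.cast_one]
        rw [h3, h4]
        change (∏ p ∈ T, 1 / ((p : ℝ) - 1)) * _ = _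
        rw [prod_div_distrib, prod_const_one]
        ring
      · intro T hT T' hT' hTT
        have h2 : (∏ p ∈ T, p).primeFactors = T :=
          Nat.primeFactors_prod fun p hp => (hTp T hT p hp).1
        have h3 : (∏ p ∈ T', p).primeFactors = T' :=
          Nat.primeFactors_prod fun p hp => (hTp T' hT' p hp).1
        have h4 : ∏ p ∈ T, p = ∏ p ∈ T', p := hTT
        rw [← h2, ← h3, h4]
    rw [h1]
    have h5 : ∑ d ∈ 𝒯.image (fun T => ∏ p ∈ T, p), (K : ℝ) ^ om d / (d.totient : ℝ) ≤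
        ∑ d ∈ Icc 1 N, (K : ℝ) ^ om d / (d.totient : ℝ) := by
      refine sum_le_sum_of_subset_of_nonneg ?_ fun d _ _ => by positivity
      intro d hd
      rw [mem_image] at hd
      obtain ⟨T, hT, rfl⟩ := hd
      rw [mem_Icc]
      refine ⟨?_, (mem_filter.1 hT).2⟩
      exact Nat.succ_le_of_lt (prod_pos fun p hp => (hTp T hT p hp).1.pos)
    refine h5.trans ((hCB N hN2).trans ?_)
    refine mul_le_mul_of_nonneg_left ?_ hC.le
    rw [← mul_pow]
    exact pow_le_pow_left₀ (Real.log_nonneg (by exact_mod_cast (by omega : 1 ≤ N))) hNlog B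
  -- conclusion
  have htot : (0 : ℝ) ≤ W.totient := Nat.cast_nonneg _
  have hm0 : (0 : ℝ) ≤ m := Nat.cast_nonneg _
  have hsplit : ∑ T ∈ 𝒯, w T * (W.totient * (K : ℝ) ^ T.card *
      ((m : ℝ) / (W * ∏ p ∈ T, p : ℕ) + 1)) =
      (W.totient / W * m) * ∑ T ∈ 𝒯, w T * ((K : ℝ) ^ T.card / (∏ p ∈ T, p : ℕ)) +
      W.totient * ∑ T ∈ 𝒯, w T * (K : ℝ) ^ T.card := by
    rw [mul_sum, mul_sum, ← sum_add_distrib]
    refine sum_congr rfl fun T hT => ?_
    have h1 : ((∏ p ∈ T, p : ℕ) : ℝ) ≠ 0 := by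
      have : ∏ p ∈ T, p ≠ 0 := prod_ne_zero_iff.2 fun p hp => (hTp T hT p hp).1.ne_zero
      exact_mod_cast this
    rw [Nat.cast_mul]
    field_simp
  rw [hsplit] at hsum
  refine hsum.trans ?_
  have hA : (W.totient / W * m) * ∑ T ∈ 𝒯, w T * ((K : ℝ) ^ T.card / (∏ p ∈ T, p : ℕ)) ≤
      (W.totient / W * m) * (1 + η / 2) :=
    mul_le_mul_of_nonneg_left hfirst (by positivity)
  have hB : (W.totient : ℝ) * ∑ T ∈ 𝒯, w T * (K : ℝ) ^ T.card ≤
      (W.totient / W * m) * (η / 2) := by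
    have h1 := hL₀ L hL0
    have h2 : (W : ℝ) * (C * ((K : ℝ) + 1) ^ B) * (2 / η) / t * Real.log (H * L) ^ B =
        (W : ℝ) * (C * (((K : ℝ) + 1) ^ B * Real.log (H * L) ^ B)) * (2 / η) / t := by ring
    rw [h2, div_le_iff₀ ht] at h1
    have h3 : (W : ℝ) * (C * (((K : ℝ) + 1) ^ B * Real.log (H * L) ^ B)) * (2 / η) ≤ m := by
      linarith
    have h4 : (W : ℝ) * (∑ T ∈ 𝒯, w T * (K : ℝ) ^ T.card) * (2 / η) ≤ m := by
      refine le_trans (mul_le_mul_of_nonneg_right ?_ (by positivity)) h3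
      exact mul_le_mul_of_nonneg_left hsecond hWr.le
    have h5 : (∑ T ∈ 𝒯, w T * (K : ℝ) ^ T.card) ≤ m / W * (η / 2) := by
      rw [div_mul_eq_mul_div, le_div_iff₀ hWr]
      have h6 : (W : ℝ) * (∑ T ∈ 𝒯, w T * (K : ℝ) ^ T.card) * (2 / η) * (η / 2) =
          (∑ T ∈ 𝒯, w T * (K : ℝ) ^ T.card) * W := by
        field_simp
      rw [← h6]
      exact mul_le_mul_of_nonneg_right h4 (by positivity)
    calc (W.totient : ℝ) * ∑ T ∈ 𝒯, w T * (K : ℝ) ^ T.card ≤ W.totient * (m / W * (η / 2)) :=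
          mul_le_mul_of_nonneg_left h5 htot
      _ = (W.totient / W * m) * (η / 2) := by ring
  calc _ ≤ (W.totient / W * m) * (1 + η / 2) + (W.totient / W * m) * (η / 2) := add_le_add hA hB
    _ = (1 + η) * ((W.totient : ℝ) / W) * m := by ring


/-- SAH. The mean value of the singular factor, positions up to `H₀ log X`. -/
theorem pf_SAH (hDVK : Pool.Agent.H31.MP.T_DVK) : T_SAH := by
  intro K η hη
  choose f hf using fun K' : ℕ => sa_gen hDVK K' η hη
  refine ⟨(range (K + 1)).sup f, fun y₀ hy₀ t H₀ ht => ?_⟩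
  have hfy : ∀ K' ≤ K, f K' ≤ y₀ := fun K' hK' =>
    (Finset.le_sup (f := f) (Finset.mem_range.2 (by omega))).trans hy₀
  have hX : ∀ K' : ℕ, ∃ X₀ : ℝ, K' ≤ K → ∀ X : ℝ, X₀ ≤ X → ∀ (h : Fin K' → ℕ) (a m : ℕ),
      (∀ i, (h i : ℝ) ≤ max H₀ 2 * Real.log X) → ((a + m : ℕ) : ℝ) ≤ max H₀ 2 * Real.log X →
      t * Real.log X ≤ m →
      ∑ e ∈ (Ico a (a + m)).filter (fun e => (1 + e).Coprime (primorial y₀)), Rp y₀ e h ≤
        (1 + η) * ((primorial y₀).totient / primorial y₀) * m := by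
    intro K'
    by_cases hK' : K' ≤ K
    · obtain ⟨X₀, hX₀⟩ := hf K' y₀ (hfy K' hK') t (max H₀ 2) ht (le_max_right _ _)
      exact ⟨X₀, fun _ => hX₀⟩
    · exact ⟨0, fun h => absurd h hK'⟩
  choose X₀ hX₀ using hX
  refine ⟨max 1 (∑ K' ∈ range (K + 1), |X₀ K'|), fun X hX S a m hS hSX ham htm => ?_⟩
  have hX1 : 1 ≤ X := (le_max_left _ _).trans hX
  have hlog : 0 ≤ Real.log X := Real.log_nonneg hX1
  have hH : H₀ * Real.log X ≤ max H₀ 2 * Real.log X :=
    mul_le_mul_of_nonneg_right (le_max_left _ _) hlog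
  have hXS : X₀ S.card ≤ X := by
    refine (le_abs_self _).trans (le_trans ?_ ((le_max_right _ _).trans hX))
    exact Finset.single_le_sum (f := fun K' => |X₀ K'|) (fun _ _ => abs_nonneg _)
      (Finset.mem_range.2 (by omega))
  have h1 := hX₀ S.card hS X hXS (fun i => ((S.equivFin.symm i : S) : ℕ)) a m
    (fun i => (hSX _ (S.equivFin.symm i).2).trans hH) (ham.trans hH) htm
  have h2 : ∀ e, RpS y₀ e S = Rp y₀ e (fun i => ((S.equivFin.symm i : S) : ℕ)) := by
    intro e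
    unfold RpS Rp
    have h3 : ∏ i, ((e : ℤ) - ((S.equivFin.symm i : S) : ℕ)).natAbs =
        ∏ s ∈ S, ((e : ℤ) - s).natAbs := by
      rw [Equiv.prod_comp S.equivFin.symm (fun s : S => ((e : ℤ) - ((s : S) : ℕ)).natAbs)]
      exact Finset.prod_coe_sort S (fun s : ℕ => ((e : ℤ) - s).natAbs)
    rw [h3]
  rw [Finset.sum_congr rfl fun e _ => h2 e]
  exact h1

end Pool.Agent.H54.RP
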