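import Pool.Agent.H82.RP.TB
import Pool.Agent.H57.MTP.TE

/-!
# MP_76b9e7_nt, row TEN of rpw_modules: products in separate variables
-/

set_option autoImplicit false

open Finset Real ArithmeticFunction
open scoped Nat ArithmeticFunction.Moebius

namespace Pool.Agent.H54.RP

open Pool.Agent.H82.RP Pool.Agent.H57.MTP
open Pool.Agent.H31.MP (RS Rgh Pz Me Om Lam1 QF1)

theorem mem_BG {I : Type} [Fintype I] [DecidableEq I] {z Y : ℝ} {d : I → ℕ} :
    d ∈ BG I z Y ↔ ∀ i, d i ∈ RS z Y := by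
  simp only [BG, Fintype.mem_piFinset]

theorem BG_mono {I : Type} [Fintype I] [DecidableEq I] {z Y W : ℝ} (h : Y ≤ W) :
    BG I z Y ⊆ BG I z W := fun _ hd => mem_BG.2 fun i => RS_mono h (mem_BG.1 hd i)

theorem sum_BG_restrict {I : Type} [Fintype I] [DecidableEq I] {U : Finset I} {z Y W C : ℝ}
    (h : Y ≤ W) {l : (I → ℕ) → ℝ} (hl : WG U z Y C l) (g : (I → ℕ) → ℝ)
    (hg : ∀ d, l d = 0 → g d = 0) : ∑ d ∈ BG I z W, g d = ∑ d ∈ BG I z Y, g d := by
  refine (Finset.sum_subset (BG_mono h) ?_).symm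
  intro d _ hd
  by_contra hne
  exact hd (hl.supp d fun h0 => hne (hg d h0)).1

theorem sum_BG_sum {A B : Type} [Fintype A] [DecidableEq A] [Fintype B] [DecidableEq B]
    (z W : ℝ) (f : (A ⊕ B → ℕ) → ℝ) :
    ∑ d ∈ BG (A ⊕ B) z W, f d = ∑ d ∈ BG A z W, ∑ d' ∈ BG B z W, f (Sum.elim d d') := by
  rw [← Finset.sum_product']
  refine Finset.sum_nbij' (fun d => (fun a => d (Sum.inl a), fun b => d (Sum.inr b)))
    (fun q => Sum.elim q.1 q.2) ?_ ?_ ?_ ?_ ?_
  · intro d hd
    rw [mem_BG] at hd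
    rw [Finset.mem_product, mem_BG, mem_BG]
    exact ⟨fun i => hd _, fun i => hd _⟩
  · intro q hq
    rw [Finset.mem_product, mem_BG, mem_BG] at hq
    rw [mem_BG]
    rintro (i | i)
    · exact hq.1 i
    · exact hq.2 i
  · intro d _
    funext i
    rcases i with i | i <;> rfl
  · intro q _
    rfl
  · intro d _
    congr 1
    funext i
    rcases i with i | i <;> rfl

/-- TEN. Products in separate variables. -/
theorem pf_TEN : T_TEN := by
  classical
  intro A B _ _ _ _ z Y Y' hY hY' U V C C' l k l' k' hC hl hk hl' hk'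
  have h1 : Y ≤ Y * Y' := by nlinarith
  have h2 : Y' ≤ Y * Y' := by nlinarith
  have ht : ∀ (l : (A → ℕ) → ℝ) (l' : (B → ℕ) → ℝ) (d : A → ℕ) (d' : B → ℕ),
      ten2 l l' (Sum.elim d d') = l d * l' d' := fun _ _ _ _ => rfl
  refine ⟨⟨?_, ?_⟩, ?_, ?_⟩
  · intro d hd
    have h3 : l (fun i => d (Sum.inl i)) ≠ 0 := left_ne_zero_of_mul hd
    have h4 : l' (fun i => d (Sum.inr i)) ≠ 0 := right_ne_zero_of_mul hd
    obtain ⟨a1, a2, a3⟩ := hl.supp _ h3
    obtain ⟨b1, b2, b3⟩ := hl'.supp _ h4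
    rw [mem_BG] at a1 b1
    refine ⟨?_, ?_, ?_⟩
    · rw [mem_BG]
      rintro (i | i)
      · exact RS_mono h1 (a1 i)
      · exact RS_mono h2 (b1 i)
    · rw [Fintype.prod_sum_type, Nat.cast_mul]
      exact mul_le_mul a2 b2 (Nat.cast_nonneg _) (by linarith)
    · rintro (i | i) hi
      · exact a3 i fun h => hi (Finset.inl_mem_disjSum.2 h)
      · exact b3 i fun h => hi (Finset.inr_mem_disjSum.2 h)
  · intro d
    simp only [ten2, abs_mul]
    exact mul_le_mul (hl.bd _) (hl'.bd _) (abs_nonneg _) hC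
  · unfold QB
    rw [sum_BG_sum]
    have e1 : ∀ (d : A → ℕ) (d' : B → ℕ),
        ∑ e ∈ BG (A ⊕ B) z (Y * Y'), ten2 l l' (Sum.elim d d') * ten2 k k' e /
          ∏ i, (Nat.lcm ((Sum.elim d d' : A ⊕ B → ℕ) i) (e i) : ℝ) =
        (∑ e ∈ BG A z Y, l d * k e / ∏ i, (Nat.lcm (d i) (e i) : ℝ)) *
          ∑ e' ∈ BG B z Y', l' d' * k' e' / ∏ i, (Nat.lcm (d' i) (e' i) : ℝ) := by
      intro d d'
      rw [sum_BG_sum, sum_BG_restrict h1 hk]
      · rw [Finset.sum_mul]
        refine Finset.sum_congr rfl fun e _ => ?_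
        rw [sum_BG_restrict h2 hk']
        · rw [Finset.mul_sum]
          refine Finset.sum_congr rfl fun e' _ => ?_
          rw [ht, ht, Fintype.prod_sum_type]
          simp only [Sum.elim_inl, Sum.elim_inr]
          rw [div_mul_div_comm]
          congr 1
          ring
        · intro e' he'
          rw [ht k k' e e', he']
          simp
      · intro e he
        refine Finset.sum_eq_zero fun e' _ => ?_
        rw [ht k k' e e', he]
        simp
    simp only [e1]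
    have e2 : ∀ d : A → ℕ, ∑ d' ∈ BG B z (Y * Y'),
        (∑ e ∈ BG A z Y, l d * k e / ∏ i, (Nat.lcm (d i) (e i) : ℝ)) *
          ∑ e' ∈ BG B z Y', l' d' * k' e' / ∏ i, (Nat.lcm (d' i) (e' i) : ℝ) =
        (∑ e ∈ BG A z Y, l d * k e / ∏ i, (Nat.lcm (d i) (e i) : ℝ)) *
          ∑ d' ∈ BG B z Y', ∑ e' ∈ BG B z Y', l' d' * k' e' /
            ∏ i, (Nat.lcm (d' i) (e' i) : ℝ) := by
      intro d
      rw [sum_BG_restrict h2 hl', Finset.mul_sum]
      intro d' hd'
      have : ∑ e' ∈ BG B z Y', l' d' * k' e' / ∏ i, (Nat.lcm (d' i) (e' i) : ℝ) = 0 :=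
        Finset.sum_eq_zero fun e' _ => by rw [hd']; simp
      rw [this, mul_zero]
    simp only [e2]
    rw [sum_BG_restrict h1 hl, Finset.sum_mul]
    intro d hd
    have : ∑ e ∈ BG A z Y, l d * k e / ∏ i, (Nat.lcm (d i) (e i) : ℝ) = 0 :=
      Finset.sum_eq_zero fun e _ => by rw [hd]; simp
    rw [this, zero_mul]
  · intro P P' n
    unfold LG
    rw [sum_BG_sum]
    have e1 : ∀ (d : A → ℕ) (d' : B → ℕ),
        (if ∀ i, (Sum.elim d d' : A ⊕ B → ℕ) i ∣ n + (Sum.elim P P' : A ⊕ B → ℕ) i then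
          ten2 l l' (Sum.elim d d') else 0) =
        (if ∀ i, d i ∣ n + P i then l d else 0) * (if ∀ i, d' i ∣ n + P' i then l' d' else 0) := by
      intro d d'
      rw [ht]
      have hiff : (∀ i, (Sum.elim d d' : A ⊕ B → ℕ) i ∣ n + (Sum.elim P P' : A ⊕ B → ℕ) i) ↔
          ((∀ i, d i ∣ n + P i) ∧ ∀ i, d' i ∣ n + P' i) := by
        rw [Sum.forall]
        rfl
      by_cases hA : ∀ i, d i ∣ n + P i
      · by_cases hB : ∀ i, d' i ∣ n + P' i
        · rw [if_pos (hiff.2 ⟨hA, hB⟩), if_pos hA, if_pos hB]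
        · rw [if_neg (fun hh => hB (hiff.1 hh).2), if_neg hB, mul_zero]
      · rw [if_neg (fun hh => hA (hiff.1 hh).1), if_neg hA, zero_mul]
    simp only [e1]
    rw [sum_BG_restrict h1 hl]
    · rw [Finset.sum_mul]
      refine Finset.sum_congr rfl fun d _ => ?_
      rw [sum_BG_restrict h2 hl', ← Finset.mul_sum]
      intro d' hd'
      rw [hd']
      simp
    · intro d hd
      refine Finset.sum_eq_zero fun d' _ => ?_
      rw [hd]
      simp

end Pool.Agent.H54.RP
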